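import Pool.Agent.Lib.MP_571595_lc.MORT.Base

/-!
# Module HIT: Proposition A
-/

set_option autoImplicit false

namespace Pool.Agent.Lib.MP_571595_lc.MORT.H12

theorem pt_inj (h : MobStatement) (T : Ty) {z z' : ℚ} (e : pt T z = pt T z') : z = z' := by
  rw [← h.coord_pt T z, ← h.coord_pt T z', e]

/-- The coordinate of the image under an elementary matrix. -/
theorem el_coord (h : MobStatement) (T : Ty) (b z z' : ℚ) (hz : z ≠ 0) (hz' : z' ≠ 0)
    (e : El T b • pt T z = pt T z') : z' = z + b := by
  by_cases h0 : z + b = 0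
  · exfalso
    have hb : b ≠ 0 := by
      rintro rfl
      apply hz
      simpa using h0
    have e2 : El T (b + b) • pt T z = El T b • pt T z' := by
      rw [← h.el_mul, mul_smul, e]
    have e3 : z + (b + b) = b := by linarith
    rw [h.el_pt T (b + b) z hz (by rw [e3]; exact hb), e3] at e2
    by_cases h1 : z' + b = 0
    · have h2 : z' = z := by linarith
      rw [h2, e, h2] at e2
      have := pt_inj h T e2
      apply hb
      linarith
    · rw [h.el_pt T b z' hz' h1] at e2
      have := pt_inj h T e2
      apply hz'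
      linarith
  · rw [h.el_pt T b z hz h0] at e
    exact (pt_inj h T e).symm

section

variable {J Q R : Type} [Fintype J] [DecidableEq J] {C : CM J Q R} (D : Data C)

theorem Mt_true (τ : Tr J Q R) : D.Mt true τ = (D.Mt false τ)⁻¹ := by
  simp only [Data.Mt, Data.lab, srcS, tgtS, mul_inv_rev, inv_inv, cond_true, cond_false, mul_assoc]

theorem prod_reverse (w : List (Tr J Q R)) :
    (w.reverse.map (D.Mt false)).prod = ((w.map (D.Mt true)).prod)⁻¹ := by
  induction w with
  | nil => simp
  | cons τ w ih =>
    simp only [List.reverse_cons, List.map_append, List.map_cons, List.map_nil, List.prod_append,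
      List.prod_cons, List.prod_nil, mul_one, mul_inv_rev, ih, Mt_true, inv_inv]

theorem letter_prod (w₁ w₂ : List (Tr J Q R)) :
    ((w₁.map some ++ none :: w₂.map some).map D.letter).prod =
      (w₁.map (D.Mt false)).prod * D.MT * (w₂.map (D.Mt false)).prod := by
  have h1 : ∀ w : List (Tr J Q R), (w.map some).map D.letter = w.map (D.Mt false) := by
    intro w
    rw [List.map_map]
    rfl
  rw [List.map_append, List.map_cons, h1, h1, List.prod_append, List.prod_cons, mul_assoc]
  rfl

end

/-- Module HIT. -/
theorem hit (h : MobStatement) (hN : NormStatement) (hD : DecStatement) (hRun : RunStatement)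
    (hT : TwoStatement) : HitStatement := by
  intro J Q R _ _ _ C D c0
  have key : ∀ wL wR : List (Tr J Q R), OkW C wL → OkW C wR →
      (D.MT • D.X c0 false wR = D.X c0 true wL ↔ D.HU c0 C.qh 0 0 wL wR) := by
    intro wL wR hL hR
    obtain ⟨nL, eL, -⟩ := hN C D c0 true (.U C.qh) wL hL
    obtain ⟨nR, eR, -⟩ := hN C D c0 false .AU wR hR
    have e1 : D.MT • D.X c0 false wR = D.X c0 true wL ↔
        El .U (D.p - D.s) • pt .U (D.ze c0 false .AU wR) = pt .U (D.ze c0 true (.U C.qh) wL) := by
      have eR' : D.Cm .AU • D.X c0 false wR = pt .U (D.ze c0 false .AU wR) := eR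
      have eL' : D.Cm (.U C.qh) • D.X c0 true wL = pt .U (D.ze c0 true (.U C.qh) wL) := eL
      rw [← eR', ← eL', Data.MT, mul_assoc, mul_smul, inv_smul_eq_iff, mul_smul]
    have r1 : (D.rho 0 : ℚ) = 1 := by
      have := D.rho_add 0 0
      rw [add_zero] at this
      have := mul_eq_left.1 this.symm
      rw [this]
      rfl
    rw [e1]
    constructor
    · intro e
      have := el_coord h .U _ _ _ nR nL e
      unfold Data.HU
      rw [r1, this]
      ring
    · intro e
      unfold Data.HU at e
      rw [r1] at e
      have e2 : D.ze c0 true (.U C.qh) wL = D.ze c0 false .AU wR + (D.p - D.s) := by linarith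
      rw [e2] at nL ⊢
      exact h.el_pt _ _ _ nR nL
  constructor
  · rintro ⟨w, hok, hw⟩
    obtain ⟨w₁, w₂, rfl⟩ := hT C D c0 w hw
    rw [letter_prod, mul_smul, mul_smul] at hw
    have hok1 : OkW C w₁ := by
      intro τ hτ
      apply hok
      simp [hτ]
    have hok2 : OkW C w₂ := by
      intro τ hτ
      apply hok
      simp [hτ]
    have hok1' : OkW C w₁.reverse := by
      intro τ hτ
      exact hok1 τ (List.mem_reverse.1 hτ)
    have e1 : D.MT • D.X c0 false w₂ = D.X c0 true w₁.reverse := by
      have e2 : (w₁.map (D.Mt false)).prod = ((w₁.reverse.map (D.Mt true)).prod)⁻¹ := by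
        rw [← prod_reverse, List.reverse_reverse]
      rw [e2, inv_smul_eq_iff] at hw
      exact hw
    obtain ⟨n, hn, hreach⟩ := hD C D c0 w₁.reverse w₂ hok1' hok2 C.qh 0 0
      ((key _ _ hok1' hok2).1 e1)
    have hn0 : n = 0 := by
      funext j
      have := congrFun hn j
      simp only [toZ, Pi.add_apply, Pi.zero_apply, zero_add] at this
      exact_mod_cast this.symm
    rw [hn0] at hreach
    exact hreach
  · intro hreach
    obtain ⟨wL, wR, hL, hR, hU⟩ := hRun C D c0 C.qh 0 hreach
    have h0 : toZ (0 : J → ℕ) = 0 := by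
      funext j
      simp [toZ]
    rw [h0] at hU
    have e1 := (key wL wR hL hR).2 hU
    refine ⟨wL.reverse.map some ++ none :: wR.map some, ?_, ?_⟩
    · intro τ hτ
      rw [List.mem_append, List.mem_cons] at hτ
      rcases hτ with hτ | hτ | hτ
      · obtain ⟨τ', h1, h2⟩ := List.mem_map.1 hτ
        cases h2
        exact hL _ (List.mem_reverse.1 h1)
      · cases hτ
      · obtain ⟨τ', h1, h2⟩ := List.mem_map.1 hτ
        cases h2
        exact hR _ h1
    · rw [letter_prod, mul_smul, mul_smul, prod_reverse, inv_smul_eq_iff]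
      exact e1

end Pool.Agent.Lib.MP_571595_lc.MORT.H12
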