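import Pool.Agent.Lib.MP_571595_lc.MORT.Base

/-!
# Module JUNC: passing from one coding matrix to another
-/

set_option autoImplicit false

namespace Pool.Agent.Lib.MP_571595_lc.MORT.H12

variable {J Q R : Type} [Fintype J] {C : CM J Q R} (D : Data C)

theorem v_add (i : J ⊕ J) {x y : ℚ} (hx : x ≠ 0) (hy : y ≠ 0) (h : D.v i x ≠ D.v i y) :
    x + y ≠ 0 ∧ D.v i (x + y) = min (D.v i x) (D.v i y) := by
  have := Fact.mk (D.prime i)
  have h1 : x + y ≠ 0 := by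
    intro h0
    apply h
    have : y = -x := by linarith
    rw [this]
    unfold Data.v
    rw [padicValRat.neg]
  exact ⟨h1, padicValRat.add_eq_min h1 hx hy h⟩

theorem v_inv (i : J ⊕ J) (x : ℚ) : D.v i x⁻¹ = -D.v i x := by
  have := Fact.mk (D.prime i)
  exact padicValRat.inv x

theorem v_neg (i : J ⊕ J) (x : ℚ) : D.v i (-x) = D.v i x := padicValRat.neg x

theorem v_mul (i : J ⊕ J) {x y : ℚ} (hx : x ≠ 0) (hy : y ≠ 0) :
    D.v i (x * y) = D.v i x + D.v i y := by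
  have := Fact.mk (D.prime i)
  exact padicValRat.mul hx hy

theorem v_one (i : J ⊕ J) : D.v i 1 = 0 := by
  unfold Data.v
  simp

theorem v_two (i : J ⊕ J) : D.v i 2 = 0 := by
  have := Fact.mk (D.prime i)
  unfold Data.v
  have h1 : padicValRat (D.pr i) ((2 : ℕ) : ℚ) = (padicValNat (D.pr i) 2 : ℤ) :=
    padicValRat.of_nat
  have h2 : padicValNat (D.pr i) 2 = 0 := padicValNat_primes (D.odd i)
  rw [h2] at h1
  simpa using h1

/-- The middle part of the junction. -/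
theorem middle (h : MobStatement) [Nonempty J] (t : ℚˣ)
    (ht : (t : ℚ) = 1 ∨ (t : ℚ) = 2 ∨ (t : ℚ) = 2⁻¹) (T : Ty) (y : ℚ) (hy : y ≠ 0) (e : ℤ)
    (he : 0 < e) (hv : ∀ i, D.v i y = -e) :
    ∃ y' : ℚ, y' ≠ 0 ∧ El .L (-1) • Dg t • El .L 1 • pt T y = pt .L y' ∧
      ∀ i, D.v i y' = -e ∨ D.v i y' = 0 ∨ D.v i y' = e := by
  obtain ⟨j⟩ := ‹Nonempty J›
  have tne : (t : ℚ) ≠ 0 := t.ne_zero
  have vt : ∀ i, D.v i (t : ℚ)⁻¹ = 0 := by
    intro i
    rcases ht with h1 | h1 | h1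
    · rw [h1, v_inv, v_one, neg_zero]
    · rw [h1, v_inv, v_two, neg_zero]
    · rw [h1, inv_inv, v_two]
  -- general computation in the L-coordinate
  have main : ∀ z : ℚ, z ≠ 0 → z + 1 ≠ 0 → (t : ℚ)⁻¹ * (z + 1) + -1 ≠ 0 →
      El .L (-1) • Dg t • El .L 1 • pt .L z = pt .L ((t : ℚ)⁻¹ * (z + 1) + -1) := by
    intro z hz hz1 hz2
    have e1 : (t : ℚ)⁻¹ * (z + 1) ≠ 0 := mul_ne_zero (inv_ne_zero tne) hz1
    rw [h.el_pt .L 1 z hz hz1, h.dg_pt t .L (z + 1) hz1]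
    have e2 : (t : ℚ) ^ Ty.L.sg = (t : ℚ)⁻¹ := by
      simp [Ty.sg]
    rw [e2, h.el_pt .L (-1) _ e1 hz2]
  cases T with
  | L =>
    have h1 : ∀ i, y + 1 ≠ 0 ∧ D.v i (y + 1) = -e := by
      intro i
      have := v_add D i hy one_ne_zero (by rw [hv, v_one]; omega)
      refine ⟨this.1, ?_⟩
      rw [this.2, hv, v_one]
      omega
    have hy1 := (h1 (.inl j)).1
    have h2 : ∀ i, D.v i ((t : ℚ)⁻¹ * (y + 1)) = -e := by
      intro i
      rw [v_mul D i (inv_ne_zero tne) hy1, vt, (h1 i).2, zero_add]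
    have e1 : (t : ℚ)⁻¹ * (y + 1) ≠ 0 := mul_ne_zero (inv_ne_zero tne) hy1
    have h3 : ∀ i, (t : ℚ)⁻¹ * (y + 1) + -1 ≠ 0 ∧ D.v i ((t : ℚ)⁻¹ * (y + 1) + -1) = -e := by
      intro i
      have := v_add D i e1 (neg_ne_zero.2 one_ne_zero) (by rw [h2, v_neg, v_one]; omega)
      refine ⟨this.1, ?_⟩
      rw [this.2, h2, v_neg, v_one]
      omega
    have hz := (h3 (.inl j)).1
    exact ⟨_, hz, main y hy hy1 hz, fun i => Or.inl (h3 i).2⟩
  | U =>
    have hpt : pt .U y = pt .L y⁻¹ := h.pt_op .L y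
    have hyi : y⁻¹ ≠ 0 := inv_ne_zero hy
    have hvi : ∀ i, D.v i y⁻¹ = e := by
      intro i
      rw [v_inv, hv, neg_neg]
    have h1 : ∀ i, y⁻¹ + 1 ≠ 0 ∧ D.v i (y⁻¹ + 1) = 0 := by
      intro i
      have := v_add D i hyi one_ne_zero (by rw [hvi, v_one]; omega)
      refine ⟨this.1, ?_⟩
      rw [this.2, hvi, v_one]
      omega
    have hy1 := (h1 (.inl j)).1
    rw [hpt]
    rcases ht with ht | ht | ht
    · have e2 : (t : ℚ)⁻¹ * (y⁻¹ + 1) + -1 = y⁻¹ := by rw [ht]; ring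
      refine ⟨y⁻¹, hyi, ?_, fun i => Or.inr (Or.inr (hvi i))⟩
      have := main y⁻¹ hyi hy1 (by rw [e2]; exact hyi)
      rw [e2] at this
      exact this
    · have e2 : (t : ℚ)⁻¹ * (y⁻¹ + 1) + -1 = 2⁻¹ * y⁻¹ + -(2⁻¹) := by rw [ht]; ring
      have h4 : ∀ i, D.v i (2⁻¹ * y⁻¹) = e := by
        intro i
        rw [v_mul D i (by norm_num) hyi, v_inv, v_two, hvi]
        omega
      have h5 : ∀ i, (2⁻¹ * y⁻¹ + -(2⁻¹) : ℚ) ≠ 0 ∧ D.v i (2⁻¹ * y⁻¹ + -(2⁻¹)) = 0 := by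
        intro i
        have := v_add D i (x := 2⁻¹ * y⁻¹) (y := -(2⁻¹)) (mul_ne_zero (by norm_num) hyi)
          (by norm_num) (by rw [h4, v_neg, v_inv, v_two]; omega)
        refine ⟨this.1, ?_⟩
        rw [this.2, h4, v_neg, v_inv, v_two]
        omega
      refine ⟨_, (h5 (.inl j)).1, ?_, fun i => Or.inr (Or.inl (h5 i).2)⟩
      have := main y⁻¹ hyi hy1 (by rw [e2]; exact (h5 (.inl j)).1)
      rw [e2] at this
      exact this
    · have e2 : (t : ℚ)⁻¹ * (y⁻¹ + 1) + -1 = 2 * y⁻¹ + 1 := by rw [ht]; ring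
      have h4 : ∀ i, D.v i (2 * y⁻¹) = e := by
        intro i
        rw [v_mul D i (by norm_num) hyi, v_two, hvi]
        omega
      have h5 : ∀ i, (2 * y⁻¹ + 1 : ℚ) ≠ 0 ∧ D.v i (2 * y⁻¹ + 1) = 0 := by
        intro i
        have := v_add D i (x := 2 * y⁻¹) (y := 1) (mul_ne_zero (by norm_num) hyi)
          one_ne_zero (by rw [h4, v_one]; omega)
        refine ⟨this.1, ?_⟩
        rw [this.2, h4, v_one]
        omega
      refine ⟨_, (h5 (.inl j)).1, ?_, fun i => Or.inr (Or.inl (h5 i).2)⟩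
      have := main y⁻¹ hyi hy1 (by rw [e2]; exact (h5 (.inl j)).1)
      rw [e2] at this
      exact this

/-- Module JUNC. -/
theorem junc (h : MobStatement) : JuncStatement := by
  intro J Q R _ _ C D a b x hab hx hvx
  obtain ⟨j⟩ := ‹Nonempty J›
  have : Nonempty J := ⟨j⟩
  have ekb : ∀ i, D.v i (D.k b) = -D.ek b := fun i => D.v_k i b
  have ek'b : ∀ i, D.v i (D.k' b) = -D.ek' b := fun i => D.v_k' i b
  have pos : 0 < D.ek b := by
    have h1 := D.es_pos; have h2 := D.es_lt_ep; have h3 := D.ep_lt_ek b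
    omega
  have posa : 0 < D.ek a := by
    have h1 := D.es_pos; have h2 := D.es_lt_ep; have h3 := D.ep_lt_ek a
    omega
  have pos' := D.ek'_pos b
  have pos'a := D.ek'_pos a
  -- step 1
  have s1 : ∀ i, x + -D.k b ≠ 0 ∧ D.v i (x + -D.k b) < 0 := by
    intro i
    have := v_add D i hx (neg_ne_zero.2 (D.k_ne b)) (by rw [v_neg, ekb]; exact hvx i)
    refine ⟨this.1, ?_⟩
    rw [this.2, v_neg, ekb]
    have := min_le_right (D.v i x) (-D.ek b)
    omega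
  have n1 := (s1 (.inl j)).1
  -- step 2
  have s2 : ∀ i, (x + -D.k b)⁻¹ + -D.k' b ≠ 0 ∧
      D.v i ((x + -D.k b)⁻¹ + -D.k' b) = -D.ek' b := by
    intro i
    have h1 : 0 < D.v i (x + -D.k b)⁻¹ := by
      rw [v_inv]
      have := (s1 i).2
      omega
    have := v_add D i (inv_ne_zero n1) (neg_ne_zero.2 (D.k'_ne b))
      (by rw [v_neg, ek'b]; omega)
    refine ⟨this.1, ?_⟩
    rw [this.2, v_neg, ek'b]
    omega
  have n2 := (s2 (.inl j)).1
  have act1 : (El b.ty (D.k b))⁻¹ • pt b.ty x = pt b.ty.op (x + -D.k b)⁻¹ := by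
    rw [h.el_inv, h.el_pt _ _ _ hx n1, h.pt_op, inv_inv]
  have act2 : (El b.ty.op (D.k' b))⁻¹ • (El b.ty (D.k b))⁻¹ • pt b.ty x =
      pt b.ty.op ((x + -D.k b)⁻¹ + -D.k' b) := by
    rw [act1, h.el_inv, h.el_pt _ _ _ (inv_ne_zero n1) n2]
  -- step 3
  let two : ℚˣ := Units.mk0 2 two_ne_zero
  obtain ⟨t, ht, hdg⟩ : ∃ t : ℚˣ, ((t : ℚ) = 1 ∨ (t : ℚ) = 2 ∨ (t : ℚ) = 2⁻¹) ∧
      (if a.asc then Dg two else 1) * (if b.asc then Dg two else 1)⁻¹ = Dg t := by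
    have d1 : Dg 1 = 1 := by
      have := h.dg_mul 1 1
      rw [mul_one] at this
      exact mul_eq_left.1 this
    by_cases ha : a.asc = true
    · by_cases hb : b.asc = true
      · refine ⟨1, Or.inl rfl, ?_⟩
        rw [if_pos ha, if_pos hb, mul_inv_cancel, d1]
      · refine ⟨two, Or.inr (Or.inl rfl), ?_⟩
        rw [if_pos ha, if_neg hb, inv_one, mul_one]
    · by_cases hb : b.asc = true
      · refine ⟨two⁻¹, Or.inr (Or.inr rfl), ?_⟩
        rw [if_neg ha, if_pos hb, one_mul, h.dg_inv]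
      · refine ⟨1, Or.inl rfl, ?_⟩
        rw [if_neg ha, if_neg hb, inv_one, mul_one, d1]
  obtain ⟨y', hy', hmid, hvy'⟩ := middle D h t ht b.ty.op _ n2 (D.ek' b) pos' (fun i => (s2 i).2)
  -- step 4
  obtain ⟨y'', hy'', hpt'', hvy''⟩ : ∃ y'' : ℚ, y'' ≠ 0 ∧ pt .L y' = pt a.ty.op y'' ∧
      ∀ i, D.v i y'' = -D.ek' b ∨ D.v i y'' = 0 ∨ D.v i y'' = D.ek' b := by
    cases hty : a.ty.op with
    | L => exact ⟨y', hy', rfl, hvy'⟩
    | U =>
      refine ⟨y'⁻¹, inv_ne_zero hy', ?_, ?_⟩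
      · have := h.pt_op .U y'
        exact this
      · intro i
        rw [v_inv]
        rcases hvy' i with h1 | h1 | h1 <;> rw [h1] <;> simp
  have hne : D.ek' a ≠ D.ek' b := fun e => hab (D.ek'_inj e)
  have s4 : ∀ i, y'' + D.k' a ≠ 0 ∧ D.v i (y'' + D.k' a) < 0 := by
    intro i
    have hk : D.v i (D.k' a) = -D.ek' a := D.v_k' i a
    have := v_add D i hy'' (D.k'_ne a) (by
      rw [hk]
      rcases hvy'' i with h1 | h1 | h1 <;> rw [h1] <;> omega)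
    refine ⟨this.1, ?_⟩
    rw [this.2, hk]
    have := min_le_right (D.v i y'') (-D.ek' a)
    omega
  have n4 := (s4 (.inl j)).1
  -- step 5
  have s5 : ∀ i, (y'' + D.k' a)⁻¹ + D.k a ≠ 0 ∧
      D.v i ((y'' + D.k' a)⁻¹ + D.k a) = -D.ek a := by
    intro i
    have hk : D.v i (D.k a) = -D.ek a := D.v_k i a
    have h1 : 0 < D.v i (y'' + D.k' a)⁻¹ := by
      rw [v_inv]
      have := (s4 i).2
      omega
    have := v_add D i (inv_ne_zero n4) (D.k_ne a) (by rw [hk]; omega)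
    refine ⟨this.1, ?_⟩
    rw [this.2, hk]
    omega
  have n5 := (s5 (.inl j)).1
  refine ⟨_, n5, ?_, fun i => (s5 i).2⟩
  have e1 : D.Cm a • (D.Cm b)⁻¹ • pt b.ty x =
      El a.ty (D.k a) • El a.ty.op (D.k' a) • El .L (-1) •
        ((if a.asc then Dg two else 1) * (if b.asc then Dg two else 1)⁻¹) • El .L 1 •
        (El b.ty.op (D.k' b))⁻¹ • (El b.ty (D.k b))⁻¹ • pt b.ty x := by
    have h1 : (El .L (-1))⁻¹ = El .L 1 := by rw [h.el_inv, neg_neg]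
    simp only [Data.Cm, mul_inv_rev, mul_smul, h1]
    rfl
  rw [e1, hdg, act2, hmid, hpt'', h.el_pt _ _ _ hy'' n4]
  have e2 : pt a.ty.op (y'' + D.k' a) = pt a.ty (y'' + D.k' a)⁻¹ := h.pt_op a.ty _
  rw [e2, h.el_pt _ _ _ (inv_ne_zero n4) n5]

end Pool.Agent.Lib.MP_571595_lc.MORT.H12
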